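import Mathlib.NumberTheory.NumberField.Basic
import Mathlib.NumberTheory.Padics.PadicNumbers
import Mathlib.LinearAlgebra.Matrix.Rank
import Mathlib.LinearAlgebra.Matrix.ToLinearEquiv
import Mathlib.LinearAlgebra.Dimension.FreeAndStrongRankCondition
import Mathlib.RingTheory.TensorProduct.Free
import Mathlib.Tactic

/-!
# The p-adic regulator if only one prime of the Hecke field lies above p

Let `A` be an abelian variety over `ℚ` as in the problem, and let `E` be a number field in
`End (A) ⊗ ℚ` which is stable under the Rosati involution; the example is a simple modular abelian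
variety with its Hecke field, `[E : ℚ] = dim A`. Then `V = A(ℚ) ⊗ ℚ` is a vector space over `E`, and
the `p`-adic height pairing `h` satisfies `h x (e • y) = h (e' • x) y`, where `e'` is the image of
`e` under the Rosati involution. A basis `P` of `A(ℚ)` modulo torsion is a basis of `V`, and the
`p`-adic regulator is the determinant of the matrix `gram P h` of the `h (P i) (P j)`.

Assume that there is only one prime of `E` above `p`, i.e. that `ℚ_p ⊗ E` is a field.

Theorem. The degree `[E : ℚ]` divides the rank `r` of `A(ℚ)` and the rank of the matrix of the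
height pairing. In particular, if the regulator is zero, then the rank of the matrix is at most
`r - [E : ℚ]`; and if `r = [E : ℚ]`, the regulator is not zero if and only if the height pairing is
not identically zero.

Proof: `ℚ_p ⊗ E` acts on `ℚ_p ⊗ V`, and the radical of the height pairing is a subspace for this
field, so its dimension over `ℚ_p` is divisible by `[E : ℚ]`.
-/

open scoped TensorProduct

namespace Pool.Agent.Results.MP_3550b5_nt.SinglePrimeAbove

noncomputable section

section

variable {K : Type} [Field K] [CharZero K] {E : Type} [Field E] [NumberField E]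
  {V : Type} [AddCommGroup V] [Module ℚ V] [Module E V] [IsScalarTower ℚ E V]
  {r : ℕ} (P : Module.Basis (Fin r) ℚ V)

/-- The matrix of the pairing. -/
def gram (h : V →ₗ[ℚ] V →ₗ[ℚ] K) : Matrix (Fin r) (Fin r) K :=
  Matrix.of fun i j => h (P i) (P j)

/-- The action of `E` on `V` in coordinates, with coefficients extended to `K`. -/
def rho : E →ₐ[ℚ] Module.End K (Fin r → K) :=
  ((Matrix.toLinAlgEquiv' : Matrix (Fin r) (Fin r) K ≃ₐ[K] _).toAlgHom.restrictScalars ℚ).comp
    (((Algebra.ofId ℚ K).mapMatrix).comp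
      ((LinearMap.toMatrixAlgEquiv P).toAlgHom.comp (Algebra.lsmul ℚ ℚ V)))

lemma rho_apply (e : E) (w : Fin r → K) (i : Fin r) :
    rho P e w i = ∑ j, ((P.repr (e • P j) i : ℚ) : K) * w j := by
  simp only [rho, AlgHom.comp_apply, AlgHom.restrictScalars_apply]
  change (Matrix.toLin' _) w i = _
  rw [Matrix.toLin'_apply]
  simp [Matrix.mulVec, dotProduct, LinearMap.toMatrixAlgEquiv_apply]

variable (h : V →ₗ[ℚ] V →ₗ[ℚ] K)

omit [NumberField E] [Module E V] [IsScalarTower ℚ E V] [Field E] in
lemma left_expand (x : V) (j : Fin r) :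
    h x (P j) = ∑ k, ((P.repr x k : ℚ) : K) * h (P k) (P j) := by
  conv_lhs => rw [← P.sum_repr x, map_sum, LinearMap.sum_apply]
  exact Finset.sum_congr rfl fun k _ => by
    rw [map_smul, LinearMap.smul_apply, Rat.smul_def]

omit [NumberField E] [Module E V] [IsScalarTower ℚ E V] [Field E] in
lemma right_expand (i : Fin r) (y : V) :
    h (P i) y = ∑ k, ((P.repr y k : ℚ) : K) * h (P i) (P k) := by
  conv_lhs => rw [← P.sum_repr y, map_sum]
  exact Finset.sum_congr rfl fun k _ => by rw [map_smul, Rat.smul_def]

lemma gram_mulVec (w : Fin r → K) (i : Fin r) :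
    (gram P h).mulVec w i = ∑ j, h (P i) (P j) * w j := by
  simp [gram, Matrix.mulVec, dotProduct]

lemma ker_stable (adj : ∀ e : E, ∃ e' : E, ∀ x y, h x (e • y) = h (e' • x) y) (e : E)
    {w : Fin r → K} (hw : (gram P h).mulVec w = 0) : (gram P h).mulVec (rho P e w) = 0 := by
  obtain ⟨e', he'⟩ := adj e
  funext i
  rw [gram_mulVec]
  simp only [rho_apply]
  have e1 : ∑ k, h (P i) (P k) * ∑ j, ((P.repr (e • P j) k : ℚ) : K) * w j =
      ∑ j, h (P i) (e • P j) * w j := by
    simp only [Finset.mul_sum]
    rw [Finset.sum_comm]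
    refine Finset.sum_congr rfl fun j _ => ?_
    rw [right_expand P h i (e • P j), Finset.sum_mul]
    exact Finset.sum_congr rfl fun k _ => by ring
  have e2 : ∑ j, h (P i) (e • P j) * w j =
      ∑ k, ((P.repr (e' • P i) k : ℚ) : K) * ∑ j, h (P k) (P j) * w j := by
    simp only [Finset.mul_sum]
    rw [Finset.sum_comm]
    refine Finset.sum_congr rfl fun j _ => ?_
    rw [he', left_expand P h (e' • P i) j, Finset.sum_mul]
    exact Finset.sum_congr rfl fun k _ => by ring
  rw [e1, e2]
  refine Finset.sum_eq_zero fun k _ => ?_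
  rw [← gram_mulVec P h w k, hw, Pi.zero_apply, mul_zero]

/-- The action of `K ⊗ E` on `K^r`. -/
def act : K ⊗[ℚ] E →ₐ[K] Module.End K (Fin r → K) :=
  Algebra.TensorProduct.lift (Algebra.ofId K _) (rho P) (fun a b => by
    change Commute (algebraMap K (Module.End K (Fin r → K)) a) (rho P b)
    exact Algebra.commutes a _)

lemma act_tmul (a : K) (e : E) (w : Fin r → K) : act P (a ⊗ₜ[ℚ] e) w = a • rho P e w := by
  unfold act
  rw [Algebra.TensorProduct.lift_tmul]
  rfl

lemma ker_stable_act (adj : ∀ e : E, ∃ e' : E, ∀ x y, h x (e • y) = h (e' • x) y)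
    (b : K ⊗[ℚ] E) {w : Fin r → K} (hw : (gram P h).mulVec w = 0) :
    (gram P h).mulVec (act P b w) = 0 := by
  induction b using TensorProduct.induction_on with
  | zero => simp
  | tmul a e => rw [act_tmul, Matrix.mulVec_smul, ker_stable P h adj e hw, smul_zero]
  | add x y hx hy => rw [map_add, LinearMap.add_apply, Matrix.mulVec_add, hx, hy, add_zero]

/-- The dimension of the kernel is divisible by the degree of `E`. -/
theorem dvd_ker (hE : IsField (K ⊗[ℚ] E))
    (adj : ∀ e : E, ∃ e' : E, ∀ x y, h x (e • y) = h (e' • x) y) :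
    Module.finrank ℚ E ∣ Module.finrank K (LinearMap.ker (gram P h).mulVecLin) := by
  let _ : Field (K ⊗[ℚ] E) := hE.toField
  let _ : Module (K ⊗[ℚ] E) (Fin r → K) := Module.compHom (Fin r → K) (act P).toRingHom
  have hsmul : ∀ (b : K ⊗[ℚ] E) (w : Fin r → K), b • w = act P b w := fun b w => rfl
  have _ : IsScalarTower K (K ⊗[ℚ] E) (Fin r → K) := ⟨fun k b w => by
    rw [hsmul, hsmul, map_smul, LinearMap.smul_apply]⟩
  let N : Submodule (K ⊗[ℚ] E) (Fin r → K) :=
    { carrier := {w | (gram P h).mulVec w = 0}
      add_mem' := by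
        intro a b ha hb
        rw [Set.mem_ofPred_eq] at *
        rw [Matrix.mulVec_add, ha, hb, add_zero]
      zero_mem' := by simp
      smul_mem' := fun b w hw => ker_stable_act P h adj b hw }
  have e1 : Module.finrank K (LinearMap.ker (gram P h).mulVecLin) = Module.finrank K N :=
    LinearEquiv.finrank_eq
      { toFun := fun w => ⟨w.1, w.2⟩
        invFun := fun w => ⟨w.1, w.2⟩
        map_add' := fun _ _ => rfl
        map_smul' := fun _ _ => rfl
        left_inv := fun _ => rfl
        right_inv := fun _ => rfl }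
  rw [e1, ← Module.finrank_mul_finrank K (K ⊗[ℚ] E) N, Module.finrank_baseChange]
  exact Dvd.intro _ rfl

end

/-- Let `V = A(ℚ) ⊗ ℚ`, with the action of the Hecke field `E` and the `p`-adic height pairing `h`,
and let `P` be a basis of `V`. -/
theorem result (p : ℕ) [Fact p.Prime] (E : Type) [Field E] [NumberField E]
    (hE : IsField (ℚ_[p] ⊗[ℚ] E)) (V : Type) [AddCommGroup V] [Module ℚ V] [Module E V]
    [IsScalarTower ℚ E V] (r : ℕ) (P : Module.Basis (Fin r) ℚ V) (h : V →ₗ[ℚ] V →ₗ[ℚ] ℚ_[p])
    (adj : ∀ e : E, ∃ e' : E, ∀ x y, h x (e • y) = h (e' • x) y) :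
    Module.finrank ℚ E ∣ r ∧ Module.finrank ℚ E ∣ (gram P h).rank ∧
    ((gram P h).det = 0 → (gram P h).rank + Module.finrank ℚ E ≤ r) ∧
    (Module.finrank ℚ E = r → ((gram P h).det ≠ 0 ↔ ∃ x y, h x y ≠ 0)) := by
  have hr : Module.finrank ℚ V = r := by
    rw [Module.finrank_eq_card_basis P, Fintype.card_fin]
  have h1 : Module.finrank ℚ E ∣ r := by
    rw [← hr, ← Module.finrank_mul_finrank ℚ E V]
    exact Dvd.intro _ rfl
  have h2 := dvd_ker P h hE adj
  have h3 : (gram P h).rank + Module.finrank ℚ_[p] (LinearMap.ker (gram P h).mulVecLin) = r := by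
    have := LinearMap.finrank_range_add_finrank_ker (gram P h).mulVecLin
    rw [Module.finrank_fin_fun] at this
    exact this
  have h4 : Module.finrank ℚ E ∣ (gram P h).rank := by
    rw [← h3] at h1
    exact (Nat.dvd_add_left h2).mp h1
  have h5 : (gram P h).det = 0 → (gram P h).rank + Module.finrank ℚ E ≤ r := by
    intro hd
    obtain ⟨w, hw, hw0⟩ := Matrix.exists_mulVec_eq_zero_iff.mpr hd
    have h6 : 0 < Module.finrank ℚ_[p] (LinearMap.ker (gram P h).mulVecLin) := by
      rw [Module.finrank_pos_iff_exists_ne_zero]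
      exact ⟨⟨w, hw0⟩, fun h => hw (congrArg Subtype.val h)⟩
    have := Nat.le_of_dvd h6 h2
    omega
  refine ⟨h1, h4, h5, fun hg => ⟨fun hd => ?_, fun hne hd => ?_⟩⟩
  · by_contra hcon
    push Not at hcon
    have hpos : 0 < Module.finrank ℚ E := Module.finrank_pos
    have : gram P h = 0 := by
      ext i j
      exact hcon _ _
    apply hd
    rw [this]
    have : Nonempty (Fin r) := ⟨⟨0, by omega⟩⟩
    exact Matrix.det_zero
  · have h7 := h5 hd
    have h8 : (gram P h).rank = 0 := by omega
    rw [Matrix.rank, Module.finrank_eq_zero_iff_of_free, Submodule.subsingleton_iff_eq_bot,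
      LinearMap.range_eq_bot] at h8
    obtain ⟨x, y, hxy⟩ := hne
    apply hxy
    have h9 : ∀ i j, h (P i) (P j) = 0 := by
      intro i j
      have := congrFun (LinearMap.congr_fun h8 (Pi.single j 1)) i
      simpa [gram] using this
    have h10 : h = 0 := P.ext fun i => P.ext fun j => h9 i j
    rw [h10]
    rfl

end

end Pool.Agent.Results.MP_3550b5_nt.SinglePrimeAbove
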