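import Pool.Agent.TH116.PT.Powers

/-!
# Schneider's conjecture: small kernels of the p-adic height are enough
-/

universe u

namespace Pool.Agent.Results.MP_3550b5_nt.SublinearDefect

open Pool.Agent.TH116.PT

/-- Abelian varieties with the p-adic height pairing on the rational points modulo torsion, for a fixed
prime `p`. -/
structure Heights where
  /-- the abelian varieties of the problem with good ordinary reduction at `p` -/
  Obj : Type u
  /-- the rank of the group of rational points -/
  rk : Obj → ℕ
  /-- the dimension of the kernel of the height pairing -/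
  ker : Obj → ℕ
  ker_le : ∀ A, ker A ≤ rk A
  /-- the regulator is not zero -/
  RegNeZero : Obj → Prop
  regNeZero_iff : ∀ A, RegNeZero A ↔ ker A = 0
  /-- an additive measure of the size -/
  size : Obj → ℝ
  /-- the product -/
  mul : Obj → Obj → Obj
  rk_mul : ∀ A B, rk (mul A B) = rk A + rk B
  ker_mul : ∀ A B, ker (mul A B) = ker A + ker B
  size_mul : ∀ A B, size (mul A B) = size A + size B

/-- Let `η ≥ 1`, or let `η > 0` and let there be one abelian variety of positive rank with nonzero
regulator. Then the regulators of all abelian varieties are not zero if and only if for each `ε > 0`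
there is `C` such that the kernel of the height has dimension at most `ε |size| + C` for those for which
it has dimension at most `η rk`. -/
theorem result (T : Heights.{u}) (η : ℝ) (hη : 0 < η)
    (hB : 1 ≤ η ∨ ∃ B, T.RegNeZero B ∧ 1 ≤ T.rk B) :
    (∀ A, T.RegNeZero A) ↔
      ∀ ε : ℝ, 0 < ε → ∃ C : ℝ, ∀ A, (T.ker A : ℝ) ≤ η * T.rk A →
        (T.ker A : ℝ) ≤ ε * |T.size A| + C := by
  constructor
  · intro h ε hε
    refine ⟨0, fun A _ => ?_⟩
    rw [(T.regNeZero_iff A).1 (h A)]
    simp only [Nat.cast_zero, add_zero]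
    positivity
  · intro h A
    rw [T.regNeZero_iff]
    rcases hB with h1η | ⟨B, hB0, hB1⟩
    · have key : (T.ker A : ℝ) ≤ 0 := by
        refine nonpos_of_mul_le (s := |T.size A|) fun ε hε => ?_
        obtain ⟨C, hC⟩ := h ε hε
        refine ⟨C, fun n hn => ?_⟩
        obtain ⟨m, rfl⟩ : ∃ m, n = m + 1 := ⟨n - 1, by omega⟩
        have hk : T.ker (powOf T.mul A m) = (m + 1) * T.ker A := powOf_nat' T.mul T.ker_mul A m
        have hs : T.size (powOf T.mul A m) = ((m + 1 : ℕ) : ℝ) * T.size A := by
          rw [powOf_additive T.mul T.size_mul, nsmul_eq_mul]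
        have h1 := hC (powOf T.mul A m) (by
          have h2 : ((T.ker (powOf T.mul A m) : ℕ) : ℝ) ≤ T.rk (powOf T.mul A m) := by
            exact_mod_cast T.ker_le _
          have h3 : (0 : ℝ) ≤ T.rk (powOf T.mul A m) := Nat.cast_nonneg _
          nlinarith)
        rw [hk, hs, abs_mul, abs_of_nonneg (Nat.cast_nonneg (m + 1))] at h1
        push_cast at h1 ⊢
        exact h1
      have h7 : T.ker A ≤ 0 := by exact_mod_cast key
      omega
    · have hB0' : T.ker B = 0 := (T.regNeZero_iff B).1 hB0
      obtain ⟨M, hM⟩ := exists_nat_ge ((T.ker A : ℝ) / η)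
      have hM' : (T.ker A : ℝ) ≤ η * M := by
        rw [div_le_iff₀ hη] at hM
        linarith
      have key : (T.ker A : ℝ) ≤ 0 := by
        refine nonpos_of_mul_le (s := |T.size A + M * T.size B|) fun ε hε => ?_
        obtain ⟨C, hC⟩ := h ε hε
        refine ⟨C, fun n hn => ?_⟩
        obtain ⟨m, rfl⟩ : ∃ m, n = m + 1 := ⟨n - 1, by omega⟩
        have hk : T.ker (twOf T.mul B (powOf T.mul A m) ((m + 1) * M)) = (m + 1) * T.ker A := by
          rw [twOf_nat' T.mul T.ker_mul B _ 0 hB0', powOf_nat' T.mul T.ker_mul]
          simp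
        have hr : T.rk (twOf T.mul B (powOf T.mul A m) ((m + 1) * M)) =
            (m + 1) * T.rk A + T.rk B * ((m + 1) * M) := by
          rw [twOf_nat' T.mul T.rk_mul B _ _ rfl, powOf_nat' T.mul T.rk_mul]
        have hs : T.size (twOf T.mul B (powOf T.mul A m) ((m + 1) * M)) =
            ((m + 1 : ℕ) : ℝ) * (T.size A + M * T.size B) := by
          rw [twOf_additive T.mul T.size_mul, powOf_additive T.mul T.size_mul]
          simp only [nsmul_eq_mul]
          push_cast
          ring
        have hm : (0 : ℝ) ≤ ((m + 1 : ℕ) : ℝ) := Nat.cast_nonneg _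
        have h1 := hC (twOf T.mul B (powOf T.mul A m) ((m + 1) * M)) (by
          rw [hk, hr]
          have h2 : (1 : ℝ) ≤ T.rk B := by exact_mod_cast hB1
          have h3 : (0 : ℝ) ≤ T.rk A := Nat.cast_nonneg _
          have h4 : (0 : ℝ) ≤ (M : ℝ) := Nat.cast_nonneg _
          have h5 : (M : ℝ) ≤ T.rk A + T.rk B * M := by nlinarith
          have h6 : ((m + 1 : ℕ) : ℝ) * T.ker A ≤
              ((m + 1 : ℕ) : ℝ) * (η * (T.rk A + T.rk B * M)) :=
            mul_le_mul_of_nonneg_left (hM'.trans (mul_le_mul_of_nonneg_left h5 hη.le)) hm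
          push_cast at h6 ⊢
          refine h6.trans (le_of_eq ?_)
          ring)
        rw [hk, hs, abs_mul, abs_of_nonneg hm] at h1
        push_cast at h1 ⊢
        exact h1
      have h7 : T.ker A ≤ 0 := by exact_mod_cast key
      omega

end Pool.Agent.Results.MP_3550b5_nt.SublinearDefect
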